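import Pool.Agent.H633.CY.Stm

/-! COL for helper633: few numbers have collisions. -/

set_option autoImplicit false

namespace Pool.Agent.H747.CY633

open Finset Pool.Agent.H633.CY

theorem card_mult (N m : ℕ) :
    ((((Icc 1 N).filter (fun n => m ∣ n)).card : ℕ) : ℝ) ≤ (N : ℝ) / m := by
  have h1 : (Icc 1 N).filter (fun n => m ∣ n) = (Ioc 0 N).filter (fun n => m ∣ n) := by
    ext n
    simp only [mem_filter, mem_Icc, mem_Ioc]
    constructor
    · rintro ⟨⟨h1, h2⟩, h3⟩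
      exact ⟨⟨h1, h2⟩, h3⟩
    · rintro ⟨⟨h1, h2⟩, h3⟩
      exact ⟨⟨h1, h2⟩, h3⟩
  rw [h1, Nat.Ioc_filter_dvd_card_eq_div]
  exact Nat.cast_div_le

theorem loglog_ge {N : ℕ} (hN : 16 ≤ N) : 1 ≤ Real.log (Real.log N) := by
  have h1 : Real.log (16 : ℝ) = 4 * Real.log 2 := by
    have h : (16 : ℝ) = 2 ^ 4 := by norm_num
    rw [h, Real.log_pow]
    push_cast
    ring
  have h2 : Real.exp 1 ≤ Real.log N := by
    have h3 : Real.log (16 : ℝ) ≤ Real.log N :=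
      Real.log_le_log (by norm_num) (by exact_mod_cast hN)
    have h4 := Real.log_two_gt_d9
    have h5 := Real.exp_one_lt_d9
    linarith
  have h6 := Real.log_le_log (Real.exp_pos 1) h2
  rwa [Real.log_exp] at h6

/-- the tail of the series of the inverse squares -/
theorem tail {N : ℕ} {y : ℝ} (hy : 1 ≤ y) :
    ∑ r ∈ (Icc 1 N).filter (fun r : ℕ => r.Prime ∧ y < r), 1 / (r : ℝ) ^ 2 ≤ 2 / y := by
  set k := ⌊y⌋₊ with hk
  have hk1 : 1 ≤ k := Nat.le_floor (by exact_mod_cast hy)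
  have hky : y < k + 1 := Nat.lt_floor_add_one y
  have hk1' : (1 : ℝ) ≤ k := by exact_mod_cast hk1
  rcases Nat.lt_or_ge N k with hN | hN
  · have h1 : (Icc 1 N).filter (fun r : ℕ => r.Prime ∧ y < r) = ∅ := by
      rw [filter_eq_empty_iff]
      intro r hr h2
      have h3 : k < r := by
        have h4 : (k : ℝ) < r := (Nat.floor_le (by linarith)).trans_lt h2.2
        exact_mod_cast h4
      have := (mem_Icc.1 hr).2
      omega
    rw [h1, sum_empty]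
    positivity
  · have h1 : (Icc 1 N).filter (fun r : ℕ => r.Prime ∧ y < r) ⊆ Ioc k N := by
      intro r hr
      rw [mem_filter] at hr
      rw [mem_Ioc]
      refine ⟨?_, (mem_Icc.1 hr.1).2⟩
      have h4 : (k : ℝ) < r := (Nat.floor_le (by linarith)).trans_lt hr.2.2
      exact_mod_cast h4
    calc ∑ r ∈ (Icc 1 N).filter (fun r : ℕ => r.Prime ∧ y < r), 1 / (r : ℝ) ^ 2
        ≤ ∑ r ∈ Ioc k N, 1 / (r : ℝ) ^ 2 :=
          sum_le_sum_of_subset_of_nonneg h1 fun _ _ _ => by positivity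
      _ = ∑ r ∈ Ioc k N, ((r : ℝ) ^ 2)⁻¹ := by simp only [one_div]
      _ ≤ (k : ℝ)⁻¹ - (N : ℝ)⁻¹ := sum_Ioc_inv_sq_le_sub (by omega) hN
      _ ≤ (k : ℝ)⁻¹ := by
          have : (0 : ℝ) ≤ (N : ℝ)⁻¹ := by positivity
          linarith
      _ ≤ 2 / y := by
          rw [inv_eq_one_div, div_le_div_iff₀ (by linarith) (by linarith)]
          linarith

theorem t_col (h : S_BTS) : S_COL := by
  classical
  obtain ⟨C, hC, hB⟩ := h
  refine ⟨2 * (1 + C ^ 2), by positivity, ?_⟩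
  intro N hN y hy
  set u := Real.log (Real.log N) with hu
  have hu1 : 1 ≤ u := loglog_ge hN
  let A : ℕ → Finset ℕ := fun r => (Icc 1 N).filter (fun p : ℕ => p.Prime ∧ r ∣ p - 1)
  let B : Finset ℕ := (Icc 1 N).filter (fun r : ℕ => r.Prime ∧ y < r)
  have hsub : (Icc 1 N).filter (fun n => Coll y n) ⊆
      B.biUnion fun r => (Icc 1 N).filter (fun n => r ^ 2 ∣ n) ∪
        ((A r ×ˢ A r).biUnion fun q => (Icc 1 N).filter (fun n => q.1 * q.2 ∣ n)) := by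
    intro n hn
    rw [mem_filter, mem_Icc] at hn
    obtain ⟨⟨hn1, hnN⟩, r, hr, hyr, hcoll⟩ := hn
    rw [mem_biUnion]
    rcases hcoll with h2 | ⟨p, p', hp, hp', -, hrp, hrp', hdvd⟩
    · refine ⟨r, ?_, mem_union_left _ (mem_filter.2 ⟨mem_Icc.2 ⟨hn1, hnN⟩, h2⟩)⟩
      refine mem_filter.2 ⟨mem_Icc.2 ⟨hr.one_lt.le, ?_⟩, hr, hyr⟩
      have h3 := Nat.le_of_dvd (by omega) h2
      nlinarith [hr.one_lt]
    · have hpn : p ≤ N := (Nat.le_of_dvd (by omega) ((Dvd.intro _ rfl).trans hdvd)).trans hnN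
      have hpn' : p' ≤ N := (Nat.le_of_dvd (by omega) ((Dvd.intro_left _ rfl).trans hdvd)).trans hnN
      refine ⟨r, ?_, mem_union_right _ ?_⟩
      · refine mem_filter.2 ⟨mem_Icc.2 ⟨hr.one_lt.le, ?_⟩, hr, hyr⟩
        have h3 := Nat.le_of_dvd (by have := hp.one_lt; omega) hrp
        omega
      · rw [mem_biUnion]
        refine ⟨(p, p'), mem_product.2 ⟨?_, ?_⟩, mem_filter.2 ⟨mem_Icc.2 ⟨hn1, hnN⟩, hdvd⟩⟩
        · exact mem_filter.2 ⟨mem_Icc.2 ⟨hp.one_lt.le, hpn⟩, hp, hrp⟩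
        · exact mem_filter.2 ⟨mem_Icc.2 ⟨hp'.one_lt.le, hpn'⟩, hp', hrp'⟩
  have hN0 : (0 : ℝ) ≤ N := Nat.cast_nonneg N
  have hr : ∀ r ∈ B, (((((Icc 1 N).filter (fun n => r ^ 2 ∣ n) ∪
        ((A r ×ˢ A r).biUnion fun q => (Icc 1 N).filter (fun n => q.1 * q.2 ∣ n))).card : ℕ)) : ℝ) ≤
      N * ((1 + C ^ 2) * u ^ 2) * (1 / (r : ℝ) ^ 2) := by
    intro r hrB
    have hrp : r.Prime := (mem_filter.1 hrB).2.1
    have h1 : ((((Icc 1 N).filter (fun n => r ^ 2 ∣ n)).card : ℕ) : ℝ) ≤ N * (1 / (r : ℝ) ^ 2) := by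
      have h2 := card_mult N (r ^ 2)
      push_cast at h2
      refine h2.trans (le_of_eq ?_)
      ring
    have h2 : (((((A r ×ˢ A r).biUnion fun q =>
        (Icc 1 N).filter (fun n => q.1 * q.2 ∣ n)).card : ℕ)) : ℝ) ≤
        N * (C * u / r) ^ 2 := by
      calc (((((A r ×ˢ A r).biUnion fun q =>
        (Icc 1 N).filter (fun n => q.1 * q.2 ∣ n)).card : ℕ)) : ℝ) ≤
          ∑ q ∈ A r ×ˢ A r, ((((Icc 1 N).filter (fun n => q.1 * q.2 ∣ n)).card : ℕ) : ℝ) := by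
            exact_mod_cast card_biUnion_le
        _ ≤ ∑ q ∈ A r ×ˢ A r, (N : ℝ) * ((1 / (q.1 : ℝ)) * (1 / (q.2 : ℝ))) := by
            refine sum_le_sum fun q hq => ?_
            rw [mem_product] at hq
            have h3 := card_mult N (q.1 * q.2)
            push_cast at h3
            refine h3.trans (le_of_eq ?_)
            rw [div_mul_div_comm, one_mul, mul_one_div]
        _ = N * ((∑ p ∈ A r, 1 / (p : ℝ)) * ∑ p ∈ A r, 1 / (p : ℝ)) := by
            rw [← mul_sum, sum_product, sum_mul_sum]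
        _ ≤ N * (C * u / r) ^ 2 := by
            rw [← pow_two]
            refine mul_le_mul_of_nonneg_left (pow_le_pow_left₀ ?_ ?_ 2) hN0
            · exact sum_nonneg fun _ _ => by positivity
            · exact hB N hN r hrp
    have h3 : (1 : ℝ) ≤ u ^ 2 := one_le_pow₀ hu1
    have hr0 : (0 : ℝ) < r := by exact_mod_cast hrp.pos
    calc (((((Icc 1 N).filter (fun n => r ^ 2 ∣ n) ∪
        ((A r ×ˢ A r).biUnion fun q => (Icc 1 N).filter (fun n => q.1 * q.2 ∣ n))).card : ℕ)) : ℝ)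
        ≤ ((((Icc 1 N).filter (fun n => r ^ 2 ∣ n)).card : ℕ) : ℝ) +
          (((((A r ×ˢ A r).biUnion fun q =>
            (Icc 1 N).filter (fun n => q.1 * q.2 ∣ n)).card : ℕ)) : ℝ) := by
          exact_mod_cast card_union_le _ _
      _ ≤ N * (1 / (r : ℝ) ^ 2) + N * (C * u / r) ^ 2 := add_le_add h1 h2
      _ = N * (1 + C ^ 2 * u ^ 2) * (1 / (r : ℝ) ^ 2) := by
          field_simp
      _ ≤ N * ((1 + C ^ 2) * u ^ 2) * (1 / (r : ℝ) ^ 2) := by
          refine mul_le_mul_of_nonneg_right (mul_le_mul_of_nonneg_left ?_ hN0) (by positivity)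
          linarith
  calc ((((Icc 1 N).filter (fun n => Coll y n)).card : ℕ) : ℝ)
      ≤ (((B.biUnion fun r => (Icc 1 N).filter (fun n => r ^ 2 ∣ n) ∪
        ((A r ×ˢ A r).biUnion fun q => (Icc 1 N).filter (fun n => q.1 * q.2 ∣ n))).card : ℕ) : ℝ) := by
        exact_mod_cast card_le_card hsub
    _ ≤ ∑ r ∈ B, (((((Icc 1 N).filter (fun n => r ^ 2 ∣ n) ∪
        ((A r ×ˢ A r).biUnion fun q => (Icc 1 N).filter (fun n => q.1 * q.2 ∣ n))).card : ℕ)) : ℝ) := by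
        exact_mod_cast card_biUnion_le
    _ ≤ ∑ r ∈ B, N * ((1 + C ^ 2) * u ^ 2) * (1 / (r : ℝ) ^ 2) := sum_le_sum hr
    _ = N * ((1 + C ^ 2) * u ^ 2) * ∑ r ∈ B, 1 / (r : ℝ) ^ 2 := by rw [← mul_sum]
    _ ≤ N * ((1 + C ^ 2) * u ^ 2) * (2 / y) :=
        mul_le_mul_of_nonneg_left (tail hy) (by positivity)
    _ = 2 * (1 + C ^ 2) * (N * u ^ 2 / y) := by ring

end Pool.Agent.H747.CY633
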